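import Pool.Agent.H97.HV.Targets
import Pool.Agent.H4.PRK.INB
import Pool.Agent.H14.PRK.CI

/-!
# Row INN of the board hov: homogeneous stationary subsets
-/

open Ordinal Cardinal Order Set
open scoped ZFSet

universe u

namespace Pool.Agent.H80.HV

open _root_.HD HD.PRK HD.HV

theorem pf_INN (h1 : T_GCN.{u}) (h2 : T_HMN.{u}) (h3 : T_AMN.{u}) :
    T_INN.{u} := by
  intro δ hext hA K hK hδK γ hfit hven T hT
  obtain ⟨D, hD, hDr, hDs, hD0⟩ : ∃ D : Cardinal.{u}, δ = D.ord ∧ D.IsRegular ∧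
      D.IsStrongLimit ∧ ℵ₀ < D := by
    obtain ⟨η, -, θ, j, h⟩ := HD.All.xa δ hext 0
    exact HD.All.xb δ η θ j h
  subst hD
  have hDK : D < K := Cardinal.ord_lt_ord.1 hδK
  have hK0 : ℵ₀ < K := hD0.trans hDK
  have hcof : ℵ₀ < K.ord.cof := by
    rw [hK.cof_ord]
    exact hK0
  have hlim : IsSuccLimit K.ord := Cardinal.isSuccLimit_ord hK0.le
  obtain ⟨en, hen⟩ := HD.All.en
  obtain ⟨M, hM, hMD, hpos⟩ := Pool.Agent.H4.PRK.INB_pos Pool.Agent.H14.PRK.pf_CI hK hK0 hDK hT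
  have hNS := HD.All.xl D.ord hext hA M K hM (Cardinal.ord_lt_ord.2 hMD) hK hδK
  have hNSX := HD.All.ha D.ord M.ord K.ord hNS
  have hat := HD.All.hb en hen D M K hDr hDs hD0 hM hMD hK hDK hNSX
  obtain ⟨τ, hτ, e, he, hnull⟩ := HD.All.hc en hen D M K hDr hD0 hM hMD hK hDK hNSX hat
  -- one of the atoms
  obtain ⟨i, hi, hposi⟩ : ∃ i < τ, Pos M.ord K.ord (T ∩ E en (e i)) := by
    by_contra hno
    have hno' : ∀ i < τ, ¬ Pos M.ord K.ord (T ∩ E en (e i)) := fun i hi h => hno ⟨i, hi, h⟩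
    have hτK : τ.card < K.ord.cof := by
      rw [hK.cof_ord]
      exact (Cardinal.lt_ord.1 hτ).trans hDK
    have hU := HD.All.va M.ord K.ord hcof τ hτK (fun i => T ∩ E en (e i)) hno'
    unfold Pos at hU hnull
    push Not at hU hnull
    obtain ⟨C1, hC1, g1⟩ := hU
    obtain ⟨C2, hC2, g2⟩ := hnull
    obtain ⟨b, hbK, ⟨hb1, hb2⟩, hbT, hbc⟩ := hpos _
      (Pool.Agent.H65.HD.clb_inter hcof hC1 hC2)
    by_cases hb : ∃ i < τ, b ∈ E en (e i)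
    · obtain ⟨i, hi, hbi⟩ := hb
      exact g1 b hbK hb1 ⟨i, hi, hbT, hbi⟩ hbc
    · exact g2 b hbK hb2 (fun i hi hbi => hb ⟨i, hi, hbi⟩) hbc
  have hatom := he i hi
  obtain ⟨C, e', hGC⟩ := h1 en hen M K hK hK0 γ hfit hven (e i) hatom
  refine ⟨{a | a ∈ T ∧ a ∈ C ∧ a ∈ E en (e i) ∧ Cf M.ord a}, ?_, ?_, ?_⟩
  · rintro a ⟨ha, -, -, hc⟩
    refine ⟨ha, ?_⟩
    have hc' : a.cof.ord = M.ord := hc
    rw [hc']
    exact Cardinal.ord_lt_ord.2 hMD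
  · intro C' hC'
    obtain ⟨b, hbK, ⟨hb1, hb2⟩, ⟨hb3, hb4⟩, hb5⟩ := hposi _
      (Pool.Agent.H65.HD.clb_inter hcof hC' hGC.ve.clb)
    refine ⟨b, hbK, hb1, ⟨hb3, hb2, hb4, hb5⟩, ?_⟩
    have hc' : b.cof.ord = M.ord := hb5
    rw [hc']
    exact Cardinal.ord_lt_ord.2 hMD
  · intro β hβ hβ0 hU
    exact ⟨h2 en γ M K (e i) C e' hGC _ (fun a ha => ha.2) β hβ hβ0 hU,
      h3 en γ M K (e i) C e' hGC _ (fun a ha => ha.2) β hβ hβ0 hU⟩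

end Pool.Agent.H80.HV
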